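import Pool.Agent.N790.CM.C
import Pool.Agent.Results.MP_b454d1_nt.RiveraWindows

/-!
# A prime between `√N` and `4 √N` plus an almost prime, for all even numbers near all multiples of Carmichael's function

For almost all `m` (all `m ≤ x` but `x / (log x)^U`) and EVERY multiple `w ≤ x^B` of Carmichael's function `λ(m)`, ALL even
`N` with `|N - G w| ≤ w^κ` have at least `δ 𝔖(N) √N / (log N) ^ 2` primes `p` with `√N < p < 4 √N` such that `N - p` has at
most three prime factors, if `B (d / 2 + κ) < 1`, and at most two prime factors, if `B (13 d / 22 + κ) < 1`. Here `G` has steps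
bounded below by a positive constant and growth at most `v^d`, for example `G(v) = α v^d`. More generally `w` is any common
multiple of the values `f(p)`, `p` running through the large primes which divide `m` exactly once, where `f` takes each
positive value at boundedly many primes.

A single `m` has a power of `x` multiples of this kind, and a single `w ≤ x^B` can be a multiple of `λ(m)` for more than
`x^(1 - ε)` numbers `m ≤ x` (popular values). So this does not follow from the size of the exceptional set. The proof uses that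
outside a set of `x / (log x)^U` numbers `m ≤ x` every `w ≤ x^B` is a common multiple for at most `x^ε` of the `m` (tool
`N790/CM` of helper790), and the power saving in the starting theorem `SqrtWindowFewExceptions` of this problem.
-/

set_option autoImplicit false

namespace Pool.Agent.Results.MP_b454d1_nt.CarmichaelMultiples

open Finset
open Pool.Agent.N733.TG (Expanding expanding_pow)
open Pool.Agent.N790.CM (FewTimes Carries keep_win_nat fewTimes_pred pred_dvd_carmichael)
open Pool.Agent.Results.MP_b454d1_nt.RiveraWindows (sing inSqrt Exc count)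

/-- **Rivera's window near the multiples of Carmichael's function.** Let `r = 3`, `1 / 2 ≤ u < 1`, `ζ = 2 u / 5`, or `r = 2`,
`6 / 11 ≤ u < 1`, `ζ = u / 4`, and `s > 2 u - 1 / 2`. There is `δ > 0` such that the following holds. Let `G` have steps
`≥ a > 0` and growth at most `v^d`, let `κ ≥ 0`, `B ≥ 1`, `B (d s + κ) < 1`, and let `f` take each positive value at most `T`
times at the primes. For every `U` and all large `x`, for all `m ≤ x` but `x / (log x)^U`: for EVERY `w` with `1 ≤ w ≤ x^B` and
`f(p) ∣ w` for all primes `p > exp (√(log x))` which divide `m` exactly once, ALL even `N ≥ 1` with `|N - G w| ≤ w^κ` have at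
least `δ 𝔖(N) √N / (log N) ^ 2` primes `p` with `√N < p < 4 √N` such that `N - p` has at most `r` prime factors, all of them at
least `N ^ ζ / 2`. The function `f(p) = p - 1` takes each value at most once, and every multiple of Carmichael's function
`λ(m)` is divisible by `p - 1` for all `p ∣ m`; and `α v^d` with `α > 0`, `d ≥ 1` is an example of `G`. -/
theorem result :
    (∀ (r : ℕ) (u ζ s : ℝ),
      ((r = 3 ∧ 1 / 2 ≤ u ∧ ζ = 2 / 5 * u) ∨ (r = 2 ∧ 6 / 11 ≤ u ∧ ζ = u / 4)) → u < 1 →
      2 * u - 1 / 2 < s → ∃ δ : ℝ, 0 < δ ∧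
      ∀ (G : ℕ → ℝ) (d : ℝ), Expanding G d → ∀ κ B : ℝ, 0 ≤ κ → 1 ≤ B → B * (d * s + κ) < 1 →
      ∀ (f : ℕ → ℕ) (T : ℕ), FewTimes f T → ∀ U : ℕ, ∃ N₀ : ℕ, ∀ N : ℕ, N₀ ≤ N →
      ({m : ℕ | 1 ≤ m ∧ m ≤ N ∧ ¬ ∀ w : ℕ, 1 ≤ w → (w : ℝ) ≤ (N : ℝ) ^ B →
          Carries f (Real.exp √(Real.log N)) m w →
          ∀ n : ℕ, 1 ≤ n → Even n → |(n : ℝ) - G w| ≤ (w : ℝ) ^ κ →
            δ * sing n * (√(n : ℝ) / Real.log n ^ 2) ≤ (inSqrt r ((n : ℝ) ^ ζ / 2) n : ℝ)}.ncard : ℝ) ≤
        N / Real.log N ^ U) ∧
    (FewTimes (fun p => p - 1) 1 ∧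
      ∀ (y : ℝ) (m w : ℕ), ArithmeticFunction.carmichael m ∣ w → Carries (fun p => p - 1) y m w) ∧
    ∀ α d : ℝ, 0 < α → 1 ≤ d → Expanding (fun v => α * (v : ℝ) ^ d) d := by
  refine ⟨fun r u ζ s hpar hu hs => ?_,
    ⟨fewTimes_pred, fun y m w h p hp _ hpm _ => (pred_dvd_carmichael hp hpm).trans h⟩,
    fun α d hα hd => expanding_pow hα hd⟩
  obtain ⟨δ, hδ, hcount⟩ := count r u ζ s hpar hu hs
  refine ⟨δ, hδ, fun G d hG κ B hκ hB h1 => ?_⟩
  have hs0 : 0 ≤ s := by
    rcases hpar with ⟨-, h, -⟩ | ⟨-, h, -⟩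
    · linarith
    · linarith
  refine (keep_win_nat (Exc r ζ δ) hG (s := s) (κ := κ) hs0 hκ hB h1 hcount).mono ?_
  intro w _ hw n _ hn hnear
  by_contra hg
  rw [not_le] at hg
  exact hw n (Or.inr ⟨hn, hg⟩) hnear

end Pool.Agent.Results.MP_b454d1_nt.CarmichaelMultiples
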