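import Pool.Agent.N837.LP.GenV

set_option autoImplicit false

/-!
# Even numbers for which the first `A log N` primes of Rivera's window do not work

For every `A` and `0 < η ≤ 1/2` and every large `X` a positive proportion of the even numbers `N`
in `(X, X + X ^ η]` is such that `N - p` is composite for each prime `√N < p < 4 √N` which is among
the first `A log X` primes beyond `√N`.
-/

open Finset in
theorem Pool.Agent.Results.MP_b454d1_nt.FirstWindowPrimes.result (δ : ℝ) (hδ : 0 < δ) :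
    ∃ C : ℝ, 0 < C ∧ ∀ A η : ℝ, 1 ≤ A → 0 < η → η ≤ 1 / 2 →
    ∃ X₀ : ℝ, ∀ X : ℝ, X₀ ≤ X →
    X ^ η * Real.exp (-Real.exp (C * A / η)) ≤
      (({N : ℕ | Even N ∧ X < N ∧ (N : ℝ) ≤ X + X ^ η ∧ ∀ p : ℕ, p.Prime → √(N : ℝ) < p →
        (p : ℝ) < 4 * √(N : ℝ) →
        (((Ioc ⌊√(N : ℝ)⌋₊ p).filter Nat.Prime).card : ℝ) ≤ A * Real.log X →
        ∃ q : ℕ, q.Prime ∧ (q : ℝ) ≤ X ^ (η * δ) ∧ (q : ℤ) ∣ (N : ℤ) - p ∧
        (q : ℤ) < (N : ℤ) - p}).ncard : ℝ) := by
  obtain ⟨C, hC, h⟩ := Pool.Agent.N837.LP.genV δ hδ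
  refine ⟨2 * C, by positivity, fun A η hA hη hη1 => ?_⟩
  obtain ⟨X₀, hX₀⟩ := h (2 * A) η (by linarith) hη (by linarith)
  refine ⟨max X₀ 10000, fun X hX => ?_⟩
  have hX64 : 10000 ≤ X := (le_max_right _ _).trans hX
  have hX0 : 0 < X := by linarith
  have hlog : 1 ≤ Real.log X := by
    rw [Real.le_log_iff_exp_le hX0]
    have := Real.exp_one_lt_d9
    linarith
  have hsq : √X * √X = X := Real.mul_self_sqrt hX0.le
  have hs0 : 0 ≤ √X := Real.sqrt_nonneg _
  have hs100 : 100 ≤ √X := by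
    rw [show (100:ℝ) = √(10000) by
      rw [show (10000:ℝ) = 100 ^ 2 by norm_num, Real.sqrt_sq (by norm_num)]]
    exact Real.sqrt_le_sqrt hX64
  have hXη : X ^ η ≤ √X := by
    rw [Real.sqrt_eq_rpow]
    exact Real.rpow_le_rpow_of_exponent_le (by linarith) hη1
  -- the square root moves by at most one
  have hroot : ∀ N : ℕ, X < N → (N : ℝ) ≤ X + X ^ η → √X ≤ √(N : ℝ) ∧ √(N : ℝ) ≤ √X + 1 := by
    intro N h1 h2
    refine ⟨Real.sqrt_le_sqrt h1.le, ?_⟩
    rw [Real.sqrt_le_left (by linarith)]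
    nlinarith
  set P : Finset ℕ := (Ioc ⌊√X⌋₊ ⌊4 * √X + 4⌋₊).filter (fun p => p.Prime ∧
    (((Ioc ⌊√X⌋₊ p).filter Nat.Prime).card : ℝ) ≤ 2 * A * Real.log X) with hP
  have hPc : (P.card : ℝ) ≤ 2 * A * Real.log X := by
    rcases P.eq_empty_or_nonempty with he | hne
    · rw [he]
      simp only [card_empty, Nat.cast_zero]
      positivity
    · obtain ⟨p, hp, hmax⟩ := P.exists_max_image id hne
      have h1 : P ⊆ (Ioc ⌊√X⌋₊ p).filter Nat.Prime := by
        intro q hq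
        have h2 := hmax q hq
        rw [hP, mem_filter, mem_Ioc] at hq
        rw [mem_filter, mem_Ioc]
        exact ⟨⟨hq.1.1, h2⟩, hq.2.1⟩
      have h2 : (P.card : ℝ) ≤ (((Ioc ⌊√X⌋₊ p).filter Nat.Prime).card : ℝ) := by
        exact_mod_cast card_le_card h1
      rw [hP, mem_filter] at hp
      exact h2.trans hp.2.2
  have h1 := hX₀ X ((le_max_left _ _).trans hX) (P.image (fun m : ℕ => (m : ℤ)))
    (le_trans (by exact_mod_cast card_image_le) hPc)
    (by
      intro t ht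
      rw [mem_image] at ht
      obtain ⟨m, hm, rfl⟩ := ht
      rw [hP, mem_filter, mem_Ioc] at hm
      have h2 : (m : ℝ) ≤ 4 * √X + 4 := (Nat.le_floor_iff (by positivity)).1 hm.1.2
      rw [Int.cast_natCast, abs_of_nonneg (Nat.cast_nonneg m)]
      nlinarith)
    0
  refine le_trans (le_of_eq ?_) (h1.trans (Nat.cast_le.2 (Set.ncard_le_ncard ?_ ?_)))
  · congr 4
    ring
  · intro n hn
    obtain ⟨q1, q2, q3, q4⟩ := hn
    have e1 : (n : ℤ) % 2 = 0 := by simpa using q3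
    have e2 : n % 2 = 0 := by omega
    obtain ⟨r1, r2⟩ := hroot n q1 q2
    refine ⟨Nat.even_iff.2 e2, q1, q2, fun p hp hp1 hp2 hp3 => ?_⟩
    have hmem : p ∈ P := by
      rw [hP, mem_filter, mem_Ioc]
      refine ⟨⟨(Nat.floor_lt hs0).2 (by linarith), Nat.le_floor (by linarith)⟩, hp, ?_⟩
      have h2 : (Ioc ⌊√X⌋₊ p).filter Nat.Prime ⊆
          (Ioc ⌊√(n : ℝ)⌋₊ p).filter Nat.Prime ∪ {⌊√X⌋₊ + 1} := by
        intro t ht
        rw [mem_filter, mem_Ioc] at ht
        rw [mem_union, mem_filter, mem_Ioc, mem_singleton]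
        by_cases h3 : ⌊√(n : ℝ)⌋₊ < t
        · exact Or.inl ⟨⟨h3, ht.1.2⟩, ht.2⟩
        · right
          push Not at h3
          have h4 : ⌊√(n : ℝ)⌋₊ ≤ ⌊√X⌋₊ + 1 := by
            rw [← Nat.floor_add_one hs0]
            exact Nat.floor_le_floor r2
          omega
      have h3 := (card_le_card h2).trans (card_union_le _ _)
      rw [card_singleton] at h3
      have h4 : (((Ioc ⌊√X⌋₊ p).filter Nat.Prime).card : ℝ) ≤
          (((Ioc ⌊√(n : ℝ)⌋₊ p).filter Nat.Prime).card : ℝ) + 1 := by exact_mod_cast h3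
      nlinarith
    exact q4 _ (mem_image_of_mem _ hmem)
  · apply (Set.finite_Iic ⌊X + X ^ η⌋₊).subset
    intro a ha
    obtain ⟨_, _, h2, _⟩ := ha
    rw [Set.mem_Iic]
    exact Nat.le_floor h2
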