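import Pool.Agent.N733.TG.K
import Pool.Agent.Results.MP_b454d1_nt.RiveraWindows

/-!
# A prime between `√N` and `4 √N` plus an almost prime, for all even numbers near values of multiplicative functions

Let `f` be a positive multiplicative function of at most polynomial growth such that `f p ≤ M p` for the large primes `p`,
with different values at different large primes; for example Euler's function or the sum of the divisors. Let `G` have steps
bounded below by a positive constant and growth at most `v^d`, for example `G(v) = α v^d`. For almost all `m` (all `m ≤ x` but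
`x / (log x)^U`) ALL even `N` with `|N - G (f m)| ≤ f(m)^κ` have at least `δ 𝔖(N) √N / (log N) ^ 2` primes `p` with
`√N < p < 4 √N` such that `N - p` has at most three prime factors, if `d / 2 + κ < 1`, and at most two prime factors, if
`13 d / 22 + κ < 1`. The values of `f` are in general taken with very large multiplicities, and so this does not follow from
the size of the exceptional set.

Proof. Write `m = k w` where `k` is composed of the primes `≤ z = x^(1 / J)`, `J` about `log log x`. For most `m ≤ x` one has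
`k ≤ x^η`, and `w` is a product of at most `J` different primes. So `f(w)` is taken at most `(1 + τ)^J` times, `τ` its number of
divisors, which is at most `x^o(1)` on average, even in mean square; and the exceptional set has only `x^(1 - δ)` elements, by the
starting theorem `SqrtWindowFewExceptions` of this problem.
-/

set_option autoImplicit false

namespace Pool.Agent.Results.MP_b454d1_nt.MultiplicativeValues

open Finset
open Pool.Agent.N733.TG (LM Expanding lm_totient lm_sigma keep_win_nat expanding_pow)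
open Pool.Agent.Results.MP_b454d1_nt.RiveraWindows (sing inSqrt Exc count)

/-- **Rivera's window near the values of multiplicative functions.** Let `r = 3`, `1 / 2 ≤ u < 1`, `ζ = 2 u / 5`, or `r = 2`,
`6 / 11 ≤ u < 1`, `ζ = u / 4`, and `s > 2 u - 1 / 2`. There is `δ > 0` such that the following holds. Let `f` be
multiplicative and positive, of at most polynomial growth, with `f p ≤ M p` at the large primes, and injective there. Let `G`
have steps `≥ a > 0` and growth at most `v^d`, and let `κ ≥ 0`, `d s + κ < 1`. For every `U` and all large `x`, for all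
`m ≤ x` but `x / (log x)^U`, ALL even `N ≥ 1` with `|N - G (f m)| ≤ f(m)^κ` have at least `δ 𝔖(N) √N / (log N) ^ 2` primes `p`
with `√N < p < 4 √N` such that `N - p` has at most `r` prime factors, all of them at least `N ^ ζ / 2`. Euler's function and
the sum of the divisors are examples of such functions `f`, and `α v^d` with `α > 0`, `d ≥ 1` is an example of `G`. -/
theorem result :
    (∀ (r : ℕ) (u ζ s : ℝ),
      ((r = 3 ∧ 1 / 2 ≤ u ∧ ζ = 2 / 5 * u) ∨ (r = 2 ∧ 6 / 11 ≤ u ∧ ζ = u / 4)) → u < 1 →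
      2 * u - 1 / 2 < s → ∃ δ : ℝ, 0 < δ ∧
      ∀ f : ℕ → ℕ, LM f → ∀ (G : ℕ → ℝ) (d : ℝ), Expanding G d → ∀ κ : ℝ, 0 ≤ κ → d * s + κ < 1 →
      ∀ U : ℕ, ∃ N₀ : ℕ, ∀ N : ℕ, N₀ ≤ N →
      ({m : ℕ | 1 ≤ m ∧ m ≤ N ∧ ¬ ∀ n : ℕ, 1 ≤ n → Even n → |(n : ℝ) - G (f m)| ≤ (f m : ℝ) ^ κ →
        δ * sing n * (√(n : ℝ) / Real.log n ^ 2) ≤ (inSqrt r ((n : ℝ) ^ ζ / 2) n : ℝ)}.ncard : ℝ) ≤
        N / Real.log N ^ U) ∧
    (LM Nat.totient ∧ LM (fun m => ∑ d ∈ m.divisors, d)) ∧
    ∀ α d : ℝ, 0 < α → 1 ≤ d → Expanding (fun v => α * (v : ℝ) ^ d) d := by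
  refine ⟨fun r u ζ s hpar hu hs => ?_, ⟨lm_totient, lm_sigma⟩, fun α d hα hd => expanding_pow hα hd⟩
  obtain ⟨δ, hδ, hcount⟩ := count r u ζ s hpar hu hs
  refine ⟨δ, hδ, fun f hf G d hG κ hκ h1 U => ?_⟩
  have hs0 : 0 ≤ s := by
    rcases hpar with ⟨-, h, -⟩ | ⟨-, h, -⟩
    · linarith
    · linarith
  obtain ⟨N₀, hN₀⟩ := keep_win_nat (Exc r ζ δ) hf hG (s := s) (κ := κ) hs0 hκ h1 hcount U
  refine ⟨N₀, fun N hN => le_trans ?_ (hN₀ N hN)⟩
  have hfin : {m : ℕ | 1 ≤ m ∧ m ≤ N ∧ ∃ n : ℕ, (n = 0 ∨ n ∈ Exc r ζ δ) ∧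
      |(n : ℝ) - G (f m)| ≤ (f m : ℝ) ^ κ}.Finite := by
    apply (Set.finite_Icc 1 N).subset
    intro m hm
    exact ⟨hm.1, hm.2.1⟩
  have h2 : {m : ℕ | 1 ≤ m ∧ m ≤ N ∧ ¬ ∀ n : ℕ, 1 ≤ n → Even n → |(n : ℝ) - G (f m)| ≤ (f m : ℝ) ^ κ →
      δ * sing n * (√(n : ℝ) / Real.log n ^ 2) ≤ (inSqrt r ((n : ℝ) ^ ζ / 2) n : ℝ)} ⊆
      {m : ℕ | 1 ≤ m ∧ m ≤ N ∧ ∃ n : ℕ, (n = 0 ∨ n ∈ Exc r ζ δ) ∧
      |(n : ℝ) - G (f m)| ≤ (f m : ℝ) ^ κ} := by
    rintro m ⟨h2, h3, h4⟩
    push Not at h4
    obtain ⟨n, hn1, hne, h5, h6⟩ := h4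
    exact ⟨h2, h3, n, Or.inr ⟨hne, h6⟩, h5⟩
  exact_mod_cast Set.ncard_le_ncard h2 hfin

end Pool.Agent.Results.MP_b454d1_nt.MultiplicativeValues
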