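import Pool.Agent.N671.DA.Win
import Pool.Agent.Results.MP_b454d1_nt.RiveraWindows

/-!
# A prime between `√N` and `4 √N` plus an almost prime, for all even numbers near functions of the denominators of good
# approximations

Let `α_1, …, α_m` be real numbers. We consider the natural numbers `q` with `‖q α_j - β_j‖ ≤ c q^(-τ)` for all `j`, `‖x‖` the
distance to the nearest integer; for `β = 0`, `c = 1`, `τ = 1 / m` these include the denominators of all best simultaneous
approximations (the denominators of the convergents for `m = 1`). They form a very sparse sequence, with gaps growing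
exponentially for almost all `α` if `τ = 1 / m`. Let `G` have steps bounded below by a positive constant and growth at most
`v^d`, for example `G(v) = a v^d`. For all `α` in `ℝ^m` outside a set of Hausdorff dimension at most
`(m + d s + κ) / (1 + τ)`, and all `c`, for all but finitely many such `q` ALL even `N` with `|N - G q| ≤ q^κ` have at least
`δ 𝔖(N) √N / (log N) ^ 2` primes `p` with `√N < p < 4 √N` such that `N - p` has at most three prime factors (`s > 1 / 2`), or at
most two prime factors (`s > 13 / 22`). For `τ = 1 / m` the bound is less than `m` if `d s + κ < 1`; and so the statement holds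
for almost all `α`.

Proof. The `q` such that some exceptional `N` is near `G q` form a set with `O(X^(d s + κ + ε))` elements up to `X`, by the
starting theorem `SqrtWindowFewExceptions` of this problem; and the `α` with `‖q α_j - β_j‖ ≤ c q^(-τ)` for all `j` and
infinitely many `q` of such a set are covered by few small cubes (`Pool.Agent.N671.DA`, helper671).
-/

set_option autoImplicit false

namespace Pool.Agent.Results.MP_b454d1_nt.SimultaneousApproximations

open Pool.Agent.N671.DA (Solves Expanding expanding_pow approx_win_nat)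
open Pool.Agent.Results.MP_b454d1_nt.RiveraWindows (sing inSqrt Exc count)

/-- **Rivera's window near the denominators of good approximations.** Let `r = 3`, `1 / 2 ≤ u < 1`, `ζ = 2 u / 5`, or `r = 2`,
`6 / 11 ≤ u < 1`, `ζ = u / 4`, and `s > 2 u - 1 / 2`. There is `δ > 0` such that the following holds. Let `G` have steps
`≥ a > 0` and growth at most `v^d`. Let `0 ≤ κ ≤ 1`, `β` in `ℝ^m` and `τ > 0`. For all `α` in `ℝ^m` outside a set of Hausdorff
dimension at most `(m + d s + κ) / (1 + τ)` and all `c`, for all large `q` with `‖q α_j - β_j‖ ≤ c q^(-τ)` for all `j`, ALL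
even `N ≥ 1` with `|N - G q| ≤ q^κ` have at least `δ 𝔖(N) √N / (log N) ^ 2` primes `p` with `√N < p < 4 √N` such that `N - p`
has at most `r` prime factors, all of them at least `N ^ ζ / 2`. The functions `a v^d` with `a > 0`, `d ≥ 1` are examples of
`G`. -/
theorem result :
    (∀ (r : ℕ) (u ζ s : ℝ),
      ((r = 3 ∧ 1 / 2 ≤ u ∧ ζ = 2 / 5 * u) ∨ (r = 2 ∧ 6 / 11 ≤ u ∧ ζ = u / 4)) → u < 1 →
      2 * u - 1 / 2 < s → ∃ δ : ℝ, 0 < δ ∧
      ∀ (G : ℕ → ℝ) (d : ℝ), Expanding G d → ∀ κ : ℝ, 0 ≤ κ → κ ≤ 1 →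
      ∀ (m : ℕ) (β : Fin m → ℝ) (τ : ℝ), 0 < τ →
      ∃ E : Set (Fin m → ℝ), dimH E ≤ ENNReal.ofReal ((m + (d * s + κ)) / (1 + τ)) ∧
        ∀ α, α ∉ E → ∀ c : ℝ, ∃ Q : ℕ, ∀ q : ℕ, Q ≤ q → Solves α β q (c * (q : ℝ) ^ (-τ)) →
          ∀ n : ℕ, 1 ≤ n → Even n → |(n : ℝ) - G q| ≤ (q : ℝ) ^ κ →
            δ * sing n * (√(n : ℝ) / Real.log n ^ 2) ≤ (inSqrt r ((n : ℝ) ^ ζ / 2) n : ℝ)) ∧
    ∀ a d : ℝ, 0 < a → 1 ≤ d → Expanding (fun v => a * (v : ℝ) ^ d) d := by
  refine ⟨fun r u ζ s hpar hu hs => ?_, fun a d ha hd => expanding_pow ha hd⟩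
  obtain ⟨δ, hδ, hcount⟩ := count r u ζ s hpar hu hs
  refine ⟨δ, hδ, fun G d hG κ hκ hκ1 m β τ hτ => ?_⟩
  have hs0 : 0 ≤ s := by
    rcases hpar with ⟨-, h, -⟩ | ⟨-, h, -⟩
    · linarith
    · linarith
  obtain ⟨E, hE, hE2⟩ := approx_win_nat (Exc r ζ δ) hG (s := s) (κ := κ) hs0 hκ hκ1 hcount β hτ
  refine ⟨E, hE, fun α hα c => ?_⟩
  obtain ⟨Q, hQ⟩ := hE2 α hα c
  refine ⟨Q, fun q hq h1 n hn hne h2 => ?_⟩
  by_contra hcon
  rw [not_le] at hcon
  exact hQ q hq h1 n (Or.inr ⟨hne, hcon⟩) h2

end Pool.Agent.Results.MP_b454d1_nt.SimultaneousApproximations
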